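import Pool.Agent.Y854.GM.Win

/-! The dimension of the set of the parameters `y` for which infinitely many of the windows around the values `f_n y`
contain an element of a thin set, for a family of functions which expand relative distances. -/

set_option autoImplicit false

open Finset Filter Topology MeasureTheory

namespace Pool.Agent.H83W

open scoped ENNReal NNReal
open Pool.Agent.Y854.GM (ExpLe tendsto_of_expLe)

/-- one piece of the parameters -/
theorem dim_fam {T : Type} (S : Set T) (h : T → ℝ) (f : ℕ → ℝ → ℝ) (Z : Set ℝ) {v : ℕ → ℝ} {s τ θ D η c : ℝ}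
    (hpos : ∀ n, 1 ≤ v n) (hτ : 0 ≤ τ) (hv : ExpLe v τ) (hs : 0 ≤ s) (hθ1 : θ < 1) (hη : 0 ≤ η)
    (hc : 0 < c) (hlow : ∀ n, ∀ y ∈ Z, v n ≤ f n y) (hup : ∀ n, ∀ y ∈ Z, f n y ≤ (v n) ^ (1 + η))
    (hexp : ∀ n, ∀ y ∈ Z, ∀ z ∈ Z, f n y ≤ f n z → c * |y - z| * f n y ≤ f n z - f n y)
    (hD : (1 + η) * s + τ < D * (1 - θ)) (C : ℝ) (hC : 0 ≤ C)
    (hS : ∀ X : ℝ, 1 ≤ X → {t | t ∈ S ∧ h t ≤ X}.Finite ∧ ({t | t ∈ S ∧ h t ≤ X}.ncard : ℝ) ≤ C * X ^ s) :
    dimH {y : ℝ | y ∈ Z ∧ ∀ n1 : ℕ, ∃ n : ℕ, n1 ≤ n ∧ ∃ t ∈ S, |h t - f n y| ≤ (f n y) ^ θ} ≤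
      ENNReal.ofReal D := by
  have h1θ : 0 < 1 - θ := by linarith
  have hD0 : 0 < D := by
    have h1 : 0 < D * (1 - θ) := lt_of_le_of_lt (by positivity) hD
    exact (pos_iff_pos_of_mul_pos h1).2 h1θ
  have hDn : ((Real.toNNReal D : ℝ≥0) : ℝ) = D := Real.coe_toNNReal D hD0.le
  have hgoal : ENNReal.ofReal D = ((Real.toNNReal D : ℝ≥0) : ℝ≥0∞) := rfl
  rw [hgoal]
  apply dimH_le_of_hausdorffMeasure_ne_top
  rw [hDn]
  have hvp : ∀ n, 0 < v n := fun n => lt_of_lt_of_le one_pos (hpos n)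
  have hX : ∀ m : ℕ, 1 ≤ 2 * (v m) ^ (1 + η) := by
    intro m
    have h1 : 1 ≤ (v m) ^ (1 + η) := Real.one_le_rpow (hpos m) (by positivity)
    linarith
  set U : ℕ → Finset T := fun m => (hS (2 * (v m) ^ (1 + η)) (hX m)).1.toFinset with hU
  set K : ℝ := C * (2 : ℝ) ^ s with hK
  have hK0 : 0 ≤ K := by positivity
  set p : ℝ := D * (1 - θ) - (1 + η) * s with hp
  have hp1 : τ < p := by rw [hp]; linarith
  have hcard : ∀ m : ℕ, ((U m).card : ℝ) ≤ K * (v m) ^ ((1 + η) * s) := by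
    intro m
    have h2 := (hS (2 * (v m) ^ (1 + η)) (hX m)).2
    rw [Real.mul_rpow (by positivity) (Real.rpow_nonneg (hvp m).le _), ← mul_assoc, ← Real.rpow_mul (hvp m).le] at h2
    rw [Set.ncard_eq_toFinset_card _ (hS (2 * (v m) ^ (1 + η)) (hX m)).1] at h2
    exact h2
  set r0 : ℕ → ℝ := fun n => (5 / c) * (v n) ^ (θ - 1) with hr0
  have hr0p : ∀ n, 0 < r0 n := fun n => mul_pos (by positivity) (Real.rpow_pos_of_pos (hvp n) _)
  have hsum : Summable (fun m : ℕ => ((5 / c) ^ D * K) * (v m) ^ (-p)) := (hv p hp1).mul_left _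
  have hlev : ∀ m : ℕ, ((U m).card : ℝ) * (r0 m) ^ D ≤ ((5 / c) ^ D * K) * (v m) ^ (-p) := by
    intro m
    have hm0 := hvp m
    calc ((U m).card : ℝ) * (r0 m) ^ D ≤ (K * (v m) ^ ((1 + η) * s)) * (r0 m) ^ D :=
          mul_le_mul_of_nonneg_right (hcard m) (Real.rpow_nonneg (hr0p m).le _)
      _ = ((5 / c) ^ D * K) * ((v m) ^ ((1 + η) * s) * (v m) ^ ((θ - 1) * D)) := by
          rw [hr0, Real.mul_rpow (by positivity) (Real.rpow_nonneg hm0.le _), ← Real.rpow_mul hm0.le]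
          ring
      _ = ((5 / c) ^ D * K) * (v m) ^ (-p) := by
          rw [← Real.rpow_add hm0]
          congr 2
          rw [hp]
          ring
  have htv : Tendsto v atTop atTop := tendsto_of_expLe hvp hτ hv
  have hvt : Tendsto (fun n => (v n) ^ (-(1 - θ))) atTop (𝓝 0) := (tendsto_rpow_neg_atTop h1θ).comp htv
  have hr0t : Tendsto r0 atTop (𝓝 0) := by
    have h2 := hvt.const_mul (5 / c)
    rw [mul_zero] at h2
    refine h2.congr (fun n => ?_)
    rw [hr0]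
    simp only
    congr 2
    ring
  have hr : ∀ ε : ℝ≥0∞, 0 < ε → ∃ N : ℕ, ∀ n : ℕ, N ≤ n → ENNReal.ofReal (r0 n) ≤ ε := by
    intro ε hε
    have h1 := ENNReal.tendsto_ofReal hr0t
    rw [ENNReal.ofReal_zero] at h1
    exact ((h1.eventually (ge_mem_nhds hε))).exists_forall_of_atTop
  set r : ℕ → ℝ≥0∞ := fun n => ⨆ i : ℕ, ENNReal.ofReal (r0 (n + i)) with hrdef
  have hrt : Tendsto r atTop (𝓝 0) := by
    rw [ENNReal.tendsto_atTop_zero]
    intro ε hε
    obtain ⟨N, hN⟩ := hr ε hε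
    exact ⟨N, fun n hn => iSup_le fun i => hN _ (by omega)⟩
  -- the windows are short against the values
  obtain ⟨n2, hn2⟩ : ∃ n2 : ℕ, ∀ n : ℕ, n2 ≤ n → (v n) ^ (-(1 - θ)) ≤ 1 / 2 :=
    (hvt.eventually (ge_mem_nhds (by norm_num : (0 : ℝ) < 1 / 2))).exists_forall_of_atTop
  have hhalf : ∀ n : ℕ, n2 ≤ n → ∀ y ∈ Z, (f n y) ^ θ ≤ f n y / 2 := by
    intro n hn y hy
    have h1 := hlow n y hy
    have h0 : 0 < f n y := lt_of_lt_of_le (hvp n) h1
    have h2 : (f n y) ^ (-(1 - θ)) ≤ (v n) ^ (-(1 - θ)) :=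
      Real.rpow_le_rpow_of_nonpos (hvp n) h1 (by linarith)
    have h3 : (f n y) ^ θ = (f n y) ^ (-(1 - θ)) * f n y := by
      have e1 : (f n y) ^ θ = (f n y) ^ (-(1 - θ) + 1) := by
        congr 1
        ring
      rw [e1, Real.rpow_add h0, Real.rpow_one]
    rw [h3]
    nlinarith [h2.trans (hn2 n hn)]
  set W : ℕ → T → Set ℝ := fun n t => {y : ℝ | y ∈ Z ∧ |h t - f n y| ≤ (f n y) ^ θ} with hW
  have hpair : ∀ n : ℕ, n2 ≤ n → ∀ t : T, ∀ y ∈ W n t, ∀ z ∈ W n t, f n y ≤ f n z → |y - z| ≤ r0 n := by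
    rintro n hn t y ⟨hy, hyt⟩ z ⟨hz, hzt⟩ hyz
    have hy0 : 0 < f n y := lt_of_lt_of_le (hvp n) (hlow n y hy)
    have hz0 : 0 < f n z := lt_of_lt_of_le (hvp n) (hlow n z hz)
    have h1 := hhalf n hn y hy
    have h2 := hhalf n hn z hz
    rw [abs_le] at hyt hzt
    have h3 : f n z ≤ 3 * f n y := by linarith [hyt.2, hzt.1]
    have h4 : (f n z) ^ θ ≤ 3 * (f n y) ^ θ := by
      rcases le_or_gt 0 θ with h0 | h0
      · calc (f n z) ^ θ ≤ (3 * f n y) ^ θ := Real.rpow_le_rpow hz0.le h3 h0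
          _ = 3 ^ θ * (f n y) ^ θ := Real.mul_rpow (by norm_num) hy0.le
          _ ≤ 3 ^ (1 : ℝ) * (f n y) ^ θ := by
              apply mul_le_mul_of_nonneg_right _ (Real.rpow_nonneg hy0.le _)
              exact Real.rpow_le_rpow_of_exponent_le (by norm_num) hθ1.le
          _ = 3 * (f n y) ^ θ := by rw [Real.rpow_one]
      · have h5 : (f n z) ^ θ ≤ (f n y) ^ θ := Real.rpow_le_rpow_of_nonpos hy0 hyz h0.le
        have h6 : 0 ≤ (f n y) ^ θ := Real.rpow_nonneg hy0.le _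
        linarith
    have h5 := hexp n y hy z hz hyz
    have h6 : 0 ≤ (f n y) ^ θ := Real.rpow_nonneg hy0.le _
    have h7 : c * |y - z| * f n y ≤ 5 * (f n y) ^ θ := by linarith [hyt.1, hzt.2, hyt.2, hzt.1]
    have h8 : (f n y) ^ θ = (f n y) ^ (θ - 1) * f n y := by
      have e1 : (f n y) ^ θ = (f n y) ^ ((θ - 1) + 1) := by
        congr 1
        ring
      rw [e1, Real.rpow_add hy0, Real.rpow_one]
    have h9 : c * |y - z| ≤ 5 * (f n y) ^ (θ - 1) := by
      rw [h8, ← mul_assoc] at h7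
      exact le_of_mul_le_mul_right h7 hy0
    have h10 : (f n y) ^ (θ - 1) ≤ (v n) ^ (θ - 1) :=
      Real.rpow_le_rpow_of_nonpos (hvp n) (hlow n y hy) (by linarith)
    show |y - z| ≤ (5 / c) * (v n) ^ (θ - 1)
    rw [div_mul_eq_mul_div, le_div_iff₀ hc]
    nlinarith
  have hd : ∀ n : ℕ, n2 ≤ n → ∀ t : T, Metric.ediam (W n t) ≤ ENNReal.ofReal (r0 n) := by
    intro n hn t
    apply Metric.ediam_le
    intro y hy z hz
    rw [edist_dist, Real.dist_eq]
    apply ENNReal.ofReal_le_ofReal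
    rcases le_total (f n y) (f n z) with hyz | hyz
    · exact hpair n hn t y hy z hz hyz
    · rw [abs_sub_comm]
      exact hpair n hn t z hz y hy hyz
  have key := Measure.hausdorffMeasure_le_liminf_tsum (X := ℝ) (β := ℕ)
    (ι := fun n => Σ i : ℕ, (U (n + i))) D
    {y : ℝ | y ∈ Z ∧ ∀ n1 : ℕ, ∃ n : ℕ, n1 ≤ n ∧ ∃ t ∈ S, |h t - f n y| ≤ (f n y) ^ θ}
    (l := atTop) r hrt
    (fun n q => W (n + q.1) (q.2 : T))
    ((eventually_ge_atTop n2).mono fun n hn q => by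
      refine (hd (n + q.1) (by omega) _).trans ?_
      exact le_iSup (fun i : ℕ => ENNReal.ofReal (r0 (n + i))) q.1)
    (Eventually.of_forall fun n y hy => by
      obtain ⟨hyZ, hlim⟩ := hy
      obtain ⟨m, hm1, t, ht, hm3⟩ := hlim (max n n2)
      obtain ⟨i, rfl⟩ := Nat.exists_eq_add_of_le ((le_max_left n n2).trans hm1)
      have hw := hhalf (n + i) ((le_max_right n n2).trans hm1) y hyZ
      have hy0 : 0 < f (n + i) y := lt_of_lt_of_le (hvp _) (hlow _ y hyZ)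
      have hmem : t ∈ U (n + i) := by
        rw [hU, Set.Finite.mem_toFinset]
        refine ⟨ht, ?_⟩
        have h1 := hup (n + i) y hyZ
        have h2 := (abs_le.1 hm3).2
        linarith
      rw [Set.mem_iUnion]
      exact ⟨⟨i, ⟨_, hmem⟩⟩, hyZ, hm3⟩)
  refine ne_top_of_le_ne_top ?_ key
  have hnn : ∀ m : ℕ, 0 ≤ ((5 / c) ^ D * K) * (v m) ^ (-p) := fun m =>
    mul_nonneg (by positivity) (Real.rpow_nonneg (hvp m).le _)
  have htot : (∑' m : ℕ, ENNReal.ofReal (((5 / c) ^ D * K) * (v m) ^ (-p))) ≠ ⊤ := by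
    rw [← ENNReal.ofReal_tsum_of_nonneg hnn hsum]
    exact ENNReal.ofReal_ne_top
  have hbound : ∀ n : ℕ, n2 ≤ n → (∑' q : Σ i : ℕ, (U (n + i)), Metric.ediam (W (n + q.1) (q.2 : T)) ^ D) ≤
      ∑' m : ℕ, ENNReal.ofReal (((5 / c) ^ D * K) * (v m) ^ (-p)) := by
    intro n hn
    rw [ENNReal.tsum_sigma']
    calc (∑' i : ℕ, ∑' x : (U (n + i)), Metric.ediam (W (n + i) (x : T)) ^ D)
        ≤ ∑' i : ℕ, ENNReal.ofReal (((5 / c) ^ D * K) * (v (n + i)) ^ (-p)) := by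
          apply ENNReal.tsum_le_tsum
          intro i
          have h1 : ∀ x : (U (n + i)), Metric.ediam (W (n + i) (x : T)) ^ D ≤
                ENNReal.ofReal ((r0 (n + i)) ^ D) := by
            intro x
            rw [← ENNReal.ofReal_rpow_of_pos (hr0p _)]
            exact ENNReal.rpow_le_rpow (hd (n + i) (by omega) _) hD0.le
          refine (ENNReal.tsum_le_tsum h1).trans ?_
          rw [tsum_fintype]
          simp only [Finset.sum_const, Finset.card_univ, Fintype.card_coe, nsmul_eq_mul]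
          rw [← ENNReal.ofReal_natCast, ← ENNReal.ofReal_mul (by positivity)]
          apply ENNReal.ofReal_le_ofReal
          exact hlev (n + i)
      _ ≤ ∑' m : ℕ, ENNReal.ofReal (((5 / c) ^ D * K) * (v m) ^ (-p)) :=
          ENNReal.tsum_comp_le_tsum_of_injective (f := fun i : ℕ => n + i)
            (fun a b h => by simpa using h) (fun m : ℕ => ENNReal.ofReal (((5 / c) ^ D * K) * (v m) ^ (-p)))
  refine ne_top_of_le_ne_top htot ?_
  apply Filter.liminf_le_of_le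
  · isBoundedDefault
  · intro b hb
    obtain ⟨n, hn, hn'⟩ := (hb.and (eventually_ge_atTop n2)).exists
    exact hn.trans (hbound n hn')

end Pool.Agent.H83W
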