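import Pool.Agent.H83W.PolyDiv
import Pool.Agent.Results.MP_a793bb_nt.ApproximationsOverK

/-! The numerators and denominators of the norms of the values `F(x / (1 - x))` over a fixed number field. -/

set_option autoImplicit false

namespace Pool.Agent.H83W.FD

open NumberField IsDedekindDomain Finset Pool.Agent.H691R3 Pool.Agent.W223.AK Pool.Agent.W222.UABC Polynomial
open Pool.Agent.H83W.PD (normAt nd nd_abs nd_pos nd_div_le aeval_ne dg dg_nonneg)
open Pool.Agent.Results.MP_a793bb_nt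

variable {K : Type} [Field K] [NumberField K]

theorem nd_bound (x : K) (h0 : x ≠ 0) (h1 : x ≠ 1) (F : ℤ[X]) (hF : normAt x F ≠ 0) :
    (nd (normAt x F) : ℝ) ≤ (sc F * 2 ^ F.natDegree) ^ (Module.finrank ℚ K) *
      Real.exp (2 * F.natDegree * H3 ![x, 1 - x, -1]) := by
  have h1' : (1 : K) - x ≠ 0 := sub_ne_zero.2 h1.symm
  set n : ℕ := Module.finrank ℚ K with hn
  set a : Fin 3 → K := ![x, 1 - x, -1] with ha
  set X : ℝ := H3 a with hX
  have ha0 : a 0 = x := rfl
  have ha1 : a 1 = 1 - x := rfl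
  have ha2 : a 2 = -1 := rfl
  have hs : a 0 + a 1 + a 2 = 0 := by rw [ha0, ha1, ha2]; ring
  have hb := H3_bounds (x := a) (by rw [ha1]; exact h1') hs
  have hPt : Pt (x / (1 - x)) := by
    refine ⟨div_ne_zero h0 h1', ?_⟩
    have : x / (1 - x) + 1 = 1 / (1 - x) := by
      field_simp
      ring
    rw [this]
    exact div_ne_zero one_ne_zero h1'
  obtain ⟨P, hP⟩ := exists_isP ∅ hPt
  have hht : ht (x / (1 - x)) ≤ X := by
    have := hb.1
    rwa [ha0, ha1] at this
  obtain ⟨Q, hQ0, hQ1, hQ2⟩ := norm_poly hPt hP F (aeval_ne hF)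
  have hlen : Real.log (nn (P 1)) ≤ X + n * Real.log 2 := by
    rw [log_nn]
    have := len_le hPt hP 1
    rw [cS_empty] at this
    linarith
  have hnn : 0 < nn (P 1) := nn_pos _
  have hnnR : (0 : ℝ) < nn (P 1) := by exact_mod_cast hnn
  have hnn3 : (nn (P 1) : ℝ) ≤ Real.exp X * 2 ^ n := by
    have h3 : (nn (P 1) : ℝ) ≤ Real.exp (X + n * Real.log 2) := by
      rw [← Real.exp_log hnnR]
      exact Real.exp_le_exp.2 hlen
    have e4 : Real.exp ((n : ℝ) * Real.log 2) = 2 ^ n := by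
      rw [Real.exp_nat_mul, Real.exp_log two_pos]
    rwa [Real.exp_add, e4] at h3
  have h5 : nd (normAt x F) ≤ Q * nn (P 1) ^ F.natDegree := by
    rw [← nd_abs]
    refine nd_div_le hQ0 (pow_pos hnn _) ?_
    push_cast
    exact hQ1
  have hsc : 0 ≤ sc F := Finset.sum_nonneg fun i _ => abs_nonneg _
  have h6 : (nd (normAt x F) : ℝ) ≤ (Q : ℝ) * (nn (P 1) : ℝ) ^ F.natDegree := by exact_mod_cast h5
  have hQ3 : (Q : ℝ) ≤ sc F ^ n * Real.exp (F.natDegree * X) := by
    exact hQ2.trans (mul_le_mul_of_nonneg_left (Real.exp_le_exp.2 (mul_le_mul_of_nonneg_left hht (Nat.cast_nonneg _)))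
      (pow_nonneg hsc _))
  calc (nd (normAt x F) : ℝ) ≤ (Q : ℝ) * (nn (P 1) : ℝ) ^ F.natDegree := h6
    _ ≤ (sc F ^ n * Real.exp (F.natDegree * X)) * (Real.exp X * 2 ^ n) ^ F.natDegree :=
        mul_le_mul hQ3 (pow_le_pow_left₀ hnnR.le hnn3 _) (by positivity) (by positivity)
    _ = (sc F * 2 ^ F.natDegree) ^ n * Real.exp (2 * F.natDegree * X) := by
        have e5 : Real.exp (2 * F.natDegree * X) = Real.exp (F.natDegree * X) * Real.exp (F.natDegree * X) := by
          rw [← Real.exp_add]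
          congr 1
          ring
        have e6 : Real.exp X ^ F.natDegree = Real.exp (F.natDegree * X) := (Real.exp_nat_mul _ _).symm
        have e7 : ((2 : ℝ) ^ n) ^ F.natDegree = (2 ^ F.natDegree) ^ n := by
          rw [← pow_mul, ← pow_mul, mul_comm]
        rw [mul_pow, mul_pow, e5, e6, e7]
        ring

/-- the product of the numerators and the denominators for finitely many `F` -/
noncomputable def nK (J : Finset ℤ[X]) (x : K) : ℕ := ∏ F ∈ J, nd (normAt x F)

theorem nK_pos {J : Finset ℤ[X]} {x : K} (h : ∀ F ∈ J, normAt x F ≠ 0) : 0 < nK J x :=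
  Finset.prod_pos fun F hF => nd_pos (h F hF)

theorem nK_bound (J : Finset ℤ[X]) (x : K) (h0 : x ≠ 0) (h1 : x ≠ 1) (h : ∀ F ∈ J, normAt x F ≠ 0) :
    (nK J x : ℝ) ≤ (1 + ∏ F ∈ J, (sc F * 2 ^ F.natDegree) ^ (Module.finrank ℚ K)) *
      Real.exp (ApproximationsOverK.height (ApproximationsOverK.pt x)) ^ (2 * (Module.finrank ℚ K : ℝ) * dg J) := by
  have hd := ApproximationsOverK.dpos K
  have hH : H3 ![x, 1 - x, -1] = (Module.finrank ℚ K : ℝ) * ApproximationsOverK.height (ApproximationsOverK.pt x) := by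
    have e2 : ApproximationsOverK.height (ApproximationsOverK.pt x) = H3 ![x, 1 - x, -1] /
        (Module.finrank ℚ K : ℝ) := rfl
    rw [e2, mul_div_cancel₀ _ hd.ne']
  have h5 : ∏ F ∈ J, Real.exp (2 * F.natDegree * H3 ![x, 1 - x, -1]) =
      Real.exp (ApproximationsOverK.height (ApproximationsOverK.pt x)) ^ (2 * (Module.finrank ℚ K : ℝ) * dg J) := by
    rw [← Real.exp_mul, ← Real.exp_sum, hH]
    congr 1
    unfold dg
    rw [Finset.mul_sum, Finset.mul_sum]
    exact Finset.sum_congr rfl fun F _ => by ring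
  have h6 : (nK J x : ℝ) ≤ ∏ F ∈ J, ((sc F * 2 ^ F.natDegree) ^ (Module.finrank ℚ K) *
      Real.exp (2 * F.natDegree * H3 ![x, 1 - x, -1])) := by
    unfold nK
    push_cast
    exact Finset.prod_le_prod (fun F _ => Nat.cast_nonneg _) fun F hF => nd_bound x h0 h1 F (h F hF)
  rw [Finset.prod_mul_distrib, h5] at h6
  refine h6.trans (mul_le_mul_of_nonneg_right (by linarith) (Real.rpow_nonneg (Real.exp_pos _).le _))

/-- the integers which divide such a product for an exception of height at most `m ^ A` -/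
def Bad (T : Set (HeightOneSpectrum (𝓞 K))) (t c₀ A : ℝ) (J : Finset ℤ[X]) : Set ℕ :=
  {m : ℕ | ∃ x : K, (x ≠ 0 ∧ x ≠ 1 ∧ ApproximationsOverK.rad T (ApproximationsOverK.pt x) ≤
      t * ApproximationsOverK.height (ApproximationsOverK.pt x) + c₀) ∧
    Real.exp (ApproximationsOverK.height (ApproximationsOverK.pt x)) ≤ (m : ℝ) ^ A ∧
    (∀ F ∈ J, normAt x F ≠ 0) ∧ m ∣ nK J x}

/-- all norms are not zero -/
def Good (J : Finset ℤ[X]) (x : K) : Prop := ∀ F ∈ J, normAt x F ≠ 0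

open Classical in
theorem thin (T : Set (HeightOneSpectrum (𝓞 K))) (hT : T.Finite) {t A : ℝ} (c₀ : ℝ) (ht0 : 0 < t) (ht3 : t ≤ 3)
    (hA : 0 < A) (J : Finset ℤ[X]) (ε : ℝ) (hε : 0 < ε) :
    ∃ C : ℝ, ∀ X : ℕ, 1 ≤ X → (((Ioc 0 X).filter (fun m => m ∈ Bad T t c₀ A J)).card : ℝ) ≤
      C * (X : ℝ) ^ (A * ((Module.finrank ℚ K : ℝ) * ApproximationsOverK.F t) + ε) := by
  have hd := ApproximationsOverK.dpos K
  set d : ℝ := (Module.finrank ℚ K : ℝ) with hdd
  have hδ0 : 0 < ε / (2 * A) := by positivity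
  set δ' : ℝ := ε / (4 * (A * (d * (dg J + 1)))) with hδ'
  have hδ0' : 0 < δ' := by
    have := dg_nonneg J
    positivity
  obtain ⟨C, hC⟩ := ApproximationsOverK.count T hT c₀ ht0 ht3 hδ0
  obtain ⟨D, hD0, hD⟩ := Pool.Agent.H510R2.divisor_bound δ' hδ0'
  have hdg := dg_nonneg J
  set L : ℝ := 1 + ∏ F ∈ J, (sc F * 2 ^ F.natDegree) ^ (Module.finrank ℚ K) with hL
  have hL0 : 0 < L := by
    have : 0 ≤ ∏ F ∈ J, (sc F * 2 ^ F.natDegree) ^ (Module.finrank ℚ K) := Finset.prod_nonneg fun F _ => by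
      have : 0 ≤ sc F := Finset.sum_nonneg fun i _ => abs_nonneg _
      positivity
    linarith
  refine ⟨|C| * (D * L ^ δ'), fun X hX => ?_⟩
  have hX1 : (1 : ℝ) ≤ X := by exact_mod_cast hX
  have hX0 : (0 : ℝ) < X := by linarith
  set B : ℝ := (X : ℝ) ^ A with hB
  have hB1 : 1 ≤ B := Real.one_le_rpow hX1 hA.le
  have hB0 : 0 < B := by linarith
  obtain ⟨hfin, hcard⟩ := hC B hB1
  set V : Finset K := hfin.toFinset with hV
  have hFmem : ∀ x, x ∈ V ↔ x ≠ 0 ∧ x ≠ 1 ∧ Real.exp (ApproximationsOverK.height (ApproximationsOverK.pt x)) ≤ B ∧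
      ApproximationsOverK.rad T (ApproximationsOverK.pt x) ≤
        t * ApproximationsOverK.height (ApproximationsOverK.pt x) + c₀ := fun x => by
    rw [hV, Set.Finite.mem_toFinset]
    rfl
  have hsub : (Ioc 0 X).filter (fun m => m ∈ Bad T t c₀ A J) ⊆
      (V.filter fun x => Good J x).biUnion fun x => (nK J x).divisors := by
    intro m hm
    rw [mem_filter, mem_Ioc] at hm
    obtain ⟨⟨hm0, hmX⟩, x, ⟨hx0, hx1, hx2⟩, hht, hne, hdvd⟩ := hm
    have hpB : Real.exp (ApproximationsOverK.height (ApproximationsOverK.pt x)) ≤ B :=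
      hht.trans (Real.rpow_le_rpow (Nat.cast_nonneg _) (by exact_mod_cast hmX) hA.le)
    rw [mem_biUnion]
    refine ⟨x, by rw [Finset.mem_filter]; exact ⟨(hFmem x).2 ⟨hx0, hx1, hpB, hx2⟩, hne⟩, ?_⟩
    rw [Nat.mem_divisors]
    exact ⟨hdvd, (nK_pos hne).ne'⟩
  have h1 : ∀ x ∈ V.filter (fun x => Good J x),
      (((nK J x).divisors.card : ℕ) : ℝ) ≤ D * (L * B ^ (2 * d * dg J)) ^ δ' := by
    intro x hx
    rw [Finset.mem_filter] at hx
    obtain ⟨hpF, hne⟩ := hx
    obtain ⟨hx0, hx1, hxB, -⟩ := (hFmem x).1 hpF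
    have h3 := nK_bound J x hx0 hx1 hne
    refine (hD _ (nK_pos hne)).trans (mul_le_mul_of_nonneg_left ?_ hD0.le)
    refine Real.rpow_le_rpow (Nat.cast_nonneg _) (h3.trans ?_) hδ0'.le
    refine mul_le_mul_of_nonneg_left ?_ hL0.le
    exact Real.rpow_le_rpow (Real.exp_pos _).le hxB (by positivity)
  have h3 : (((Ioc 0 X).filter (fun m => m ∈ Bad T t c₀ A J)).card : ℝ) ≤
      (V.card : ℝ) * (D * (L * B ^ (2 * d * dg J)) ^ δ') := by
    calc (((Ioc 0 X).filter (fun m => m ∈ Bad T t c₀ A J)).card : ℝ)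
        ≤ ((∑ x ∈ V.filter (fun x => Good J x), (nK J x).divisors.card : ℕ) : ℝ) := by
          exact_mod_cast (card_le_card hsub).trans card_biUnion_le
      _ = ∑ x ∈ V.filter (fun x => Good J x), (((nK J x).divisors.card : ℕ) : ℝ) := by
          push_cast; rfl
      _ ≤ ∑ _x ∈ V.filter (fun x => Good J x), D * (L * B ^ (2 * d * dg J)) ^ δ' := sum_le_sum h1
      _ = ((V.filter (fun x => Good J x)).card : ℝ) * (D * (L * B ^ (2 * d * dg J)) ^ δ') := by
          rw [Finset.sum_const, nsmul_eq_mul]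
      _ ≤ (V.card : ℝ) * (D * (L * B ^ (2 * d * dg J)) ^ δ') := by
          apply mul_le_mul_of_nonneg_right _ (by positivity)
          exact_mod_cast card_filter_le _ _
  have h4 : (V.card : ℝ) ≤ |C| * B ^ (d * ApproximationsOverK.F t + ε / (2 * A)) := by
    rw [hV, ← Set.ncard_eq_toFinset_card _ hfin]
    exact hcard.trans (mul_le_mul_of_nonneg_right (le_abs_self C) (by positivity))
  have h6 : B ^ (d * ApproximationsOverK.F t + ε / (2 * A)) * (B ^ (2 * d * dg J)) ^ δ' ≤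
      (X : ℝ) ^ (A * (d * ApproximationsOverK.F t) + ε) := by
    rw [← Real.rpow_mul hB0.le, ← Real.rpow_add hB0, hB, ← Real.rpow_mul hX0.le]
    apply Real.rpow_le_rpow_of_exponent_le hX1
    have e1 : A * (d * ApproximationsOverK.F t + ε / (2 * A)) = A * (d * ApproximationsOverK.F t) + ε / 2 := by
      field_simp
    have e2 : A * (2 * d * dg J * δ') ≤ ε / 2 := by
      have e3 : A * (2 * d * (dg J + 1) * δ') = ε / 2 := by
        rw [hδ']
        field_simp
        ring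
      have e4 : A * (2 * d * dg J * δ') ≤ A * (2 * d * (dg J + 1) * δ') := by
        apply mul_le_mul_of_nonneg_left _ hA.le
        apply mul_le_mul_of_nonneg_right _ hδ0'.le
        apply mul_le_mul_of_nonneg_left _ (by positivity)
        linarith
      linarith
    rw [mul_add]
    linarith
  calc (((Ioc 0 X).filter (fun m => m ∈ Bad T t c₀ A J)).card : ℝ)
      ≤ (V.card : ℝ) * (D * (L * B ^ (2 * d * dg J)) ^ δ') := h3
    _ ≤ (|C| * B ^ (d * ApproximationsOverK.F t + ε / (2 * A))) * (D * (L * B ^ (2 * d * dg J)) ^ δ') :=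
        mul_le_mul_of_nonneg_right h4 (by positivity)
    _ = |C| * (D * L ^ δ') * (B ^ (d * ApproximationsOverK.F t + ε / (2 * A)) * (B ^ (2 * d * dg J)) ^ δ') := by
        rw [Real.mul_rpow hL0.le (by positivity)]
        ring
    _ ≤ |C| * (D * L ^ δ') * (X : ℝ) ^ (A * (d * ApproximationsOverK.F t) + ε) :=
        mul_le_mul_of_nonneg_left h6 (by positivity)

end Pool.Agent.H83W.FD
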