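import Pool.Agent.Results.MP_6e34ef_nt.StarshapedAbc
import Pool.Agent.W222.UABC.Final
import Pool.Agent.H510R2.Div

/-! The numerators and denominators of the norms of the numbers `x / (1 - x) + j`. -/

set_option autoImplicit false

namespace Pool.Agent.H83W

open NumberField IsDedekindDomain Finset Pool.Agent.H691R3 Pool.Agent.W223.AK Pool.Agent.W222.UABC
open Pool.Agent.Results.MP_6e34ef_nt

/-- the norm of `x / (1 - x) + j` -/
noncomputable def normAt {K : Type} [Field K] [NumberField K] (x : K) (j : ℤ) : ℚ :=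
  Algebra.norm ℚ (x / (1 - x) + (j : K))

/-- numerator times denominator -/
def nd (q : ℚ) : ℕ := q.num.natAbs * q.den

theorem nd_neg (q : ℚ) : nd (-q) = nd q := by
  unfold nd
  rw [Rat.num_neg_eq_neg_num, Int.natAbs_neg, Rat.den_neg_eq_den]

theorem nd_pos {q : ℚ} (hq : q ≠ 0) : 0 < nd q :=
  Nat.mul_pos (Int.natAbs_pos.2 (Rat.num_ne_zero.2 hq)) q.den_pos

theorem nd_bound {n : ℕ} (K : IntermediateField ℚ (AlgebraicClosure ℚ)) [NumberField K]
    (x : K) (hK : Module.finrank ℚ K = n) (h0 : x ≠ 0) (h1 : x ≠ 1) (j : ℤ) (hj : normAt x j ≠ 0) :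
    (nd (normAt x j) : ℝ) ≤ (2 * (|(j : ℝ)| + 1)) ^ n *
      Real.exp (2 * (n * FewViolators.height ![x, 1 - x, -1])) := by
  have h1' : (1 : K) - x ≠ 0 := sub_ne_zero.2 h1.symm
  set X : ℝ := (n : ℝ) * FewViolators.height ![x, 1 - x, -1] with hX
  have h2 : (n : ℝ) * height ![x, 1 - x, -1] ≤ X := le_rfl
  set a : Fin 3 → K := ![x, 1 - x, -1] with ha
  have ha0 : a 0 = x := rfl
  have ha1 : a 1 = 1 - x := rfl
  have ha2 : a 2 = -1 := rfl
  have hs : a 0 + a 1 + a 2 = 0 := by rw [ha0, ha1, ha2]; ring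
  have hb := H3_bounds (x := a) (by rw [ha1]; exact h1') hs
  have hPt : Pt (x / (1 - x)) := by
    refine ⟨div_ne_zero h0 h1', ?_⟩
    have : x / (1 - x) + 1 = 1 / (1 - x) := by
      field_simp
      ring
    rw [this]
    exact div_ne_zero one_ne_zero h1'
  obtain ⟨P, hP⟩ := exists_isP ∅ hPt
  rw [← hK, H3_height] at h2
  have hht : ht (x / (1 - x)) ≤ X := by
    have := hb.1.trans h2
    rwa [ha0, ha1] at this
  obtain ⟨z, hz1, hz2⟩ := exists_int hPt hP (-j)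
  have hlen : Real.log (nn (P 1)) ≤ X + n * Real.log 2 := by
    rw [log_nn]
    have := len_le hPt hP 1
    rw [cS_empty, hK] at this
    linarith
  have hnn : 0 < nn (P 1) := nn_pos _
  have hnnR : (0 : ℝ) < nn (P 1) := by exact_mod_cast hnn
  -- the norm
  set q : ℚ := Algebra.norm ℚ (((-j : ℤ) : K) - x / (1 - x)) with hq
  have hqn : q = (-1) ^ n * normAt x j := by
    rw [hq, normAt, ← hK]
    have e1 : ((-j : ℤ) : K) - x / (1 - x) = (-1) * (x / (1 - x) + (j : K)) := by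
      push_cast
      ring
    rw [e1, map_mul]
    congr 1
    have e2 : (-1 : K) = algebraMap ℚ K (-1) := by simp
    rw [e2, Algebra.norm_algebraMap]
  have hndq : nd q = nd (normAt x j) := by
    rw [hqn]
    rcases neg_one_pow_eq_or ℚ n with h | h
    · rw [h, one_mul]
    · rw [h, neg_one_mul, nd_neg]
  have hq0 : q ≠ 0 := by
    rw [hqn]
    exact mul_ne_zero (pow_ne_zero _ (by norm_num)) hj
  have hqz : q = (z : ℚ) / ((nn (P 1) : ℤ) : ℚ) := by
    rw [eq_div_iff (by exact_mod_cast hnn.ne')]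
    rw [hz1]
    push_cast
    ring
  have hz0 : z ≠ 0 := by
    intro h
    rw [h, Int.cast_zero, zero_div] at hqz
    exact hq0 hqz
  have hd1 : q.num ∣ z := by
    rw [hqz, ← Rat.divInt_eq_div]
    exact Rat.num_dvd z (Nat.cast_ne_zero.2 hnn.ne' : ((nn (P 1) : ℕ) : ℤ) ≠ 0)
  have hd2 : (q.den : ℤ) ∣ (nn (P 1) : ℤ) := by
    rw [hqz, ← Rat.divInt_eq_div]
    exact Rat.den_dvd z _
  have hn1 : (q.num.natAbs : ℝ) ≤ |(z : ℝ)| := by
    have h3 : q.num.natAbs ≤ z.natAbs := Nat.le_of_dvd (Int.natAbs_pos.2 hz0) (Int.natAbs_dvd_natAbs.2 hd1)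
    have h4 : ((z.natAbs : ℕ) : ℝ) = |(z : ℝ)| := by
      rw [Nat.cast_natAbs, Int.cast_abs]
    rw [← h4]
    exact_mod_cast h3
  have hn2 : (q.den : ℝ) ≤ nn (P 1) := by
    have h3 : q.den ≤ nn (P 1) := Nat.le_of_dvd hnn (by exact_mod_cast hd2)
    exact_mod_cast h3
  have hz3 : |(z : ℝ)| ≤ (|(j : ℝ)| + 1) ^ n * Real.exp X := by
    refine hz2.trans ?_
    rw [hK]
    push_cast
    rw [abs_neg]
    exact mul_le_mul_of_nonneg_left (Real.exp_le_exp.2 hht) (by positivity)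
  have hnn3 : (nn (P 1) : ℝ) ≤ Real.exp X * 2 ^ n := by
    have h3 : (nn (P 1) : ℝ) ≤ Real.exp (X + n * Real.log 2) := by
      rw [← Real.exp_log hnnR]
      exact Real.exp_le_exp.2 hlen
    have e4 : Real.exp ((n : ℝ) * Real.log 2) = 2 ^ n := by
      rw [Real.exp_nat_mul, Real.exp_log two_pos]
    rwa [Real.exp_add, e4] at h3
  rw [← hndq]
  unfold nd
  push_cast
  calc ((q.num.natAbs : ℕ) : ℝ) * (q.den : ℝ) ≤
        ((|(j : ℝ)| + 1) ^ n * Real.exp X) * (Real.exp X * 2 ^ n) :=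
          mul_le_mul (hn1.trans hz3) (hn2.trans hnn3) (Nat.cast_nonneg _) (by positivity)
    _ = (2 * (|(j : ℝ)| + 1)) ^ n * Real.exp (2 * X) := by
        rw [mul_pow, two_mul X, Real.exp_add]
        ring

/-- the norm of `x / (1 - x) + j` for a pair of a field and a number -/
noncomputable def nA (j : ℤ) (p : UniformAbcWindows.Num) : ℚ :=
  haveI : NumberField p.1.1 := p.1.2
  normAt p.2 j

/-- the product of the numerators and the denominators for finitely many `j` -/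
noncomputable def nJ (J : Finset ℤ) (p : UniformAbcWindows.Num) : ℕ := ∏ j ∈ J, nd (nA j p)

theorem nJ_pos {J : Finset ℤ} {p : UniformAbcWindows.Num} (h : ∀ j ∈ J, nA j p ≠ 0) : 0 < nJ J p :=
  Finset.prod_pos fun j hj => nd_pos (h j hj)

theorem nJ_bound {n : ℕ} {κ c : ℝ} (J : Finset ℤ) (p : UniformAbcWindows.Num)
    (hp : p ∈ UniformAbcWindows.Exc n κ c) (h : ∀ j ∈ J, nA j p ≠ 0) :
    (nJ J p : ℝ) ≤ (∏ j ∈ J, (2 * (|(j : ℝ)| + 1)) ^ n) *
      Real.exp (UniformAbcWindows.ht p) ^ (2 * (n : ℝ) * (J.card : ℝ)) := by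
  obtain ⟨hd, h0, h1, -⟩ := hp
  have h5 : Real.exp (2 * (n * UniformAbcWindows.ht p)) ^ J.card =
      Real.exp (UniformAbcWindows.ht p) ^ (2 * (n : ℝ) * (J.card : ℝ)) := by
    rw [← Real.exp_mul, ← Real.exp_nat_mul]
    congr 1
    ring
  rw [← h5, ← Finset.prod_const, ← Finset.prod_mul_distrib]
  unfold nJ
  push_cast
  refine Finset.prod_le_prod (fun j _ => Nat.cast_nonneg _) fun j hj => ?_
  haveI : NumberField p.1.1 := p.1.2
  exact nd_bound p.1.1 p.2 hd h0 h1 j (h j hj)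

/-- the integers which divide such a norm of a violator of height at most `m ^ A` -/
def DivBad (n : ℕ) (κ c A : ℝ) (J : Finset ℤ) : Set ℕ :=
  {m : ℕ | ∃ p ∈ UniformAbcWindows.Exc n κ c, Real.exp (UniformAbcWindows.ht p) ≤ (m : ℝ) ^ A ∧
    (∀ j ∈ J, nA j p ≠ 0) ∧ m ∣ nJ J p}

open Classical in
theorem thin {n : ℕ} (hn : 2 ≤ n) {κ e c A : ℝ} (hκ : 0 < κ) (hA : 0 < A)
    (H : ∀ δ : ℝ, 0 < δ → ∃ M : ℝ, ∀ B : ℝ, 1 ≤ B → (FewViolators.Viol n κ c B).Finite ∧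
      ((FewViolators.Viol n κ c B).ncard : ℝ) ≤ M * B ^ ((n : ℝ) * e / κ + δ)) (J : Finset ℤ) (ε : ℝ) (hε : 0 < ε) :
    ∃ C : ℝ, ∀ X : ℕ, 1 ≤ X → (((Ioc 0 X).filter (fun m => m ∈ DivBad n κ c A J)).card : ℝ) ≤
      C * (X : ℝ) ^ (A * (n * max e 0 / κ) + ε) := by
  have hn0 : (0 : ℝ) < n := by exact_mod_cast (by omega : 0 < n)
  have hN0 : (0 : ℝ) < (n : ℝ) * ((n : ℝ) + 1) := by positivity
  set δ : ℝ := ε / (2 * (A * ((n : ℝ) * ((n : ℝ) + 1)))) with hδ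
  have hδ0 : 0 < δ := by positivity
  set δ' : ℝ := ε / (4 * (A * (n * ((J.card : ℝ) + 1)))) with hδ'
  have hδ0' : 0 < δ' := by positivity
  obtain ⟨C, hC⟩ := UniformAbcWindows.count hn hκ H δ hδ0
  obtain ⟨D, hD0, hD⟩ := Pool.Agent.H510R2.divisor_bound δ' hδ0'
  set L : ℝ := ∏ j ∈ J, (2 * (|(j : ℝ)| + 1)) ^ n with hL
  have hL0 : 0 < L := Finset.prod_pos fun j _ => by positivity
  refine ⟨|C| * (D * L ^ δ'), fun X hX => ?_⟩
  have hX1 : (1 : ℝ) ≤ X := by exact_mod_cast hX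
  have hX0 : (0 : ℝ) < X := by linarith
  set B : ℝ := (X : ℝ) ^ A with hB
  have hB1 : 1 ≤ B := Real.one_le_rpow hX1 hA.le
  have hB0 : 0 < B := by linarith
  obtain ⟨hfin, hcard⟩ := hC (B ^ (n * (n + 1))) (one_le_pow₀ hB1)
  set F : Finset UniformAbcWindows.Num := hfin.toFinset with hF
  have hFmem : ∀ p, p ∈ F ↔ p ∈ UniformAbcWindows.Exc n κ c ∧
      Real.exp (UniformAbcWindows.ht p) ^ (n * (n + 1)) ≤ B ^ (n * (n + 1)) := fun p => by
    rw [hF, Set.Finite.mem_toFinset]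
    rfl
  have hle : ∀ p ∈ F, Real.exp (UniformAbcWindows.ht p) ≤ B := fun p hp =>
    le_of_pow_le_pow_left₀ (by positivity) hB0.le ((hFmem p).1 hp).2
  have hsub : (Ioc 0 X).filter (fun m => m ∈ DivBad n κ c A J) ⊆
      (F.filter fun p => ∀ j ∈ J, nA j p ≠ 0).biUnion fun p => (nJ J p).divisors := by
    intro m hm
    rw [mem_filter, mem_Ioc] at hm
    obtain ⟨⟨hm0, hmX⟩, p, hp, hht, hne, hdvd⟩ := hm
    have hpB : Real.exp (UniformAbcWindows.ht p) ≤ B :=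
      hht.trans (Real.rpow_le_rpow (Nat.cast_nonneg _) (by exact_mod_cast hmX) hA.le)
    rw [mem_biUnion]
    refine ⟨p, mem_filter.2 ⟨(hFmem p).2 ⟨hp, pow_le_pow_left₀ (Real.exp_pos _).le hpB _⟩, hne⟩, ?_⟩
    rw [Nat.mem_divisors]
    exact ⟨hdvd, (nJ_pos hne).ne'⟩
  have h1 : ∀ p ∈ F.filter (fun p => ∀ j ∈ J, nA j p ≠ 0),
      (((nJ J p).divisors.card : ℕ) : ℝ) ≤
        D * (L * B ^ (2 * (n : ℝ) * (J.card : ℝ))) ^ δ' := by
    intro p hp
    obtain ⟨hpF, hne⟩ := mem_filter.1 hp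
    obtain ⟨hpE, -⟩ := (hFmem p).1 hpF
    have h3 := nJ_bound J p hpE hne
    refine (hD _ (nJ_pos hne)).trans (mul_le_mul_of_nonneg_left ?_ hD0.le)
    refine Real.rpow_le_rpow (Nat.cast_nonneg _) (h3.trans ?_) hδ0'.le
    refine mul_le_mul_of_nonneg_left ?_ hL0.le
    exact Real.rpow_le_rpow (Real.exp_pos _).le (hle p hpF) (by positivity)
  have h3 : (((Ioc 0 X).filter (fun m => m ∈ DivBad n κ c A J)).card : ℝ) ≤
      (F.card : ℝ) * (D * (L * B ^ (2 * (n : ℝ) * (J.card : ℝ))) ^ δ') := by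
    calc (((Ioc 0 X).filter (fun m => m ∈ DivBad n κ c A J)).card : ℝ)
        ≤ ((∑ p ∈ F.filter (fun p => ∀ j ∈ J, nA j p ≠ 0),
            (nJ J p).divisors.card : ℕ) : ℝ) := by
          exact_mod_cast (card_le_card hsub).trans card_biUnion_le
      _ = ∑ p ∈ F.filter (fun p => ∀ j ∈ J, nA j p ≠ 0),
            (((nJ J p).divisors.card : ℕ) : ℝ) := by push_cast; rfl
      _ ≤ ∑ _p ∈ F.filter (fun p => ∀ j ∈ J, nA j p ≠ 0),
            D * (L * B ^ (2 * (n : ℝ) * (J.card : ℝ))) ^ δ' := sum_le_sum h1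
      _ = ((F.filter (fun p => ∀ j ∈ J, nA j p ≠ 0)).card : ℝ) *
            (D * (L * B ^ (2 * (n : ℝ) * (J.card : ℝ))) ^ δ') := by rw [sum_const, nsmul_eq_mul]
      _ ≤ (F.card : ℝ) * (D * (L * B ^ (2 * (n : ℝ) * (J.card : ℝ))) ^ δ') := by
          apply mul_le_mul_of_nonneg_right _ (by positivity)
          exact_mod_cast card_filter_le _ _
  have h4 : (F.card : ℝ) ≤ |C| * (B ^ (n * (n + 1))) ^ (max e 0 / ((n + 1) * κ) + δ) := by
    have h5 : F.card = {p | p ∈ UniformAbcWindows.Exc n κ c ∧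
        Real.exp (UniformAbcWindows.ht p) ^ (n * (n + 1)) ≤ B ^ (n * (n + 1))}.ncard := by
      rw [hF, Set.ncard_eq_toFinset_card _ hfin]
    rw [h5]
    exact hcard.trans (mul_le_mul_of_nonneg_right (le_abs_self C) (by positivity))
  have h6 : (B ^ (n * (n + 1))) ^ (max e 0 / ((n + 1) * κ) + δ) * (B ^ (2 * (n : ℝ) * (J.card : ℝ))) ^ δ' ≤
      (X : ℝ) ^ (A * (n * max e 0 / κ) + ε) := by
    rw [← Real.rpow_natCast B, ← Real.rpow_mul hB0.le, ← Real.rpow_mul hB0.le, ← Real.rpow_add hB0, hB,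
      ← Real.rpow_mul hX0.le]
    apply Real.rpow_le_rpow_of_exponent_le hX1
    have e1 : A * (((n * (n + 1) : ℕ) : ℝ) * (max e 0 / ((n + 1) * κ) + δ)) = A * (n * max e 0 / κ) + ε / 2 := by
      rw [hδ]
      push_cast
      field_simp
    have e2 : A * (2 * (n : ℝ) * (J.card : ℝ) * δ') ≤ ε / 2 := by
      have e3 : A * (2 * (n : ℝ) * ((J.card : ℝ) + 1) * δ') = ε / 2 := by
        rw [hδ']
        field_simp
        ring
      have e4 : A * (2 * (n : ℝ) * (J.card : ℝ) * δ') ≤ A * (2 * (n : ℝ) * ((J.card : ℝ) + 1) * δ') := by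
        apply mul_le_mul_of_nonneg_left _ hA.le
        apply mul_le_mul_of_nonneg_right _ hδ0'.le
        apply mul_le_mul_of_nonneg_left _ (by positivity)
        linarith
      linarith
    rw [mul_add]
    linarith
  calc (((Ioc 0 X).filter (fun m => m ∈ DivBad n κ c A J)).card : ℝ)
      ≤ (F.card : ℝ) * (D * (L * B ^ (2 * (n : ℝ) * (J.card : ℝ))) ^ δ') := h3
    _ ≤ (|C| * (B ^ (n * (n + 1))) ^ (max e 0 / ((n + 1) * κ) + δ)) * (D * (L * B ^ (2 * (n : ℝ) * (J.card : ℝ))) ^ δ') :=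
        mul_le_mul_of_nonneg_right h4 (by positivity)
    _ = |C| * (D * L ^ δ') * ((B ^ (n * (n + 1))) ^ (max e 0 / ((n + 1) * κ) + δ) * (B ^ (2 * (n : ℝ) * (J.card : ℝ))) ^ δ') := by
        rw [Real.mul_rpow hL0.le (by positivity)]
        ring
    _ ≤ |C| * (D * L ^ δ') * (X : ℝ) ^ (A * (n * max e 0 / κ) + ε) :=
        mul_le_mul_of_nonneg_left h6 (by positivity)

end Pool.Agent.H83W
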