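import Pool.Agent.W222.UABC.Final

/-! The norms of the values of polynomials with integer coefficients. -/

set_option autoImplicit false

namespace Pool.Agent.H83W

open NumberField IsDedekindDomain Finset Pool.Agent.H691R3 Pool.Agent.W223.AK Pool.Agent.W222.UABC Polynomial

variable {K : Type} [Field K] [NumberField K]

/-- the sum of the absolute values of the coefficients -/
noncomputable def sc (F : ℤ[X]) : ℝ := ∑ i ∈ range (F.natDegree + 1), |(F.coeff i : ℝ)|

theorem sc_pos {F : ℤ[X]} (hF : F ≠ 0) : 0 < sc F := by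
  unfold sc
  refine lt_of_lt_of_le ?_ (Finset.single_le_sum (f := fun i => |(F.coeff i : ℝ)|) (fun i _ => abs_nonneg _)
    (Finset.mem_range.2 (Nat.lt_succ_self F.natDegree)))
  have h : F.coeff F.natDegree ≠ 0 := by
    rw [Polynomial.coeff_natDegree]
    exact Polynomial.leadingCoeff_ne_zero.2 hF
  exact abs_pos.2 (by exact_mod_cast h)

theorem fv_sum_le (v : Pr K) (s : Finset ℕ) (f : ℕ → K) {B : ℝ} (hB : 0 ≤ B) (h : ∀ i ∈ s, fv v (f i) ≤ B) :
    fv v (∑ i ∈ s, f i) ≤ B := by
  classical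
  induction s using Finset.induction_on with
  | empty =>
    rw [Finset.sum_empty, map_zero]
    exact hB
  | insert a s ha ih =>
    rw [Finset.sum_insert ha]
    refine (fv_na v _ _).trans (max_le (h a (Finset.mem_insert_self a s)) (ih fun i hi => h i (Finset.mem_insert_of_mem hi)))

theorem aeval_sum (F : ℤ[X]) (t : K) : aeval t F = ∑ i ∈ range (F.natDegree + 1), (F.coeff i : K) * t ^ i := by
  rw [Polynomial.aeval_eq_sum_range]
  exact Finset.sum_congr rfl fun i _ => by rw [zsmul_eq_mul]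

theorem fv_poly_le (v : Pr K) (F : ℤ[X]) (t : K) : fv v (aeval t F) ≤ max (fv v t) 1 ^ F.natDegree := by
  have hm : 1 ≤ max (fv v t) 1 := le_max_right _ _
  rw [aeval_sum]
  refine fv_sum_le v _ _ (by positivity) fun i hi => ?_
  rw [map_mul, map_pow]
  have h1 : fv v (F.coeff i : K) ≤ 1 := fv_int_le v _
  have h2 : (fv v t) ^ i ≤ max (fv v t) 1 ^ F.natDegree := by
    calc (fv v t) ^ i ≤ max (fv v t) 1 ^ i := pow_le_pow_left₀ (apply_nonneg _ _) (le_max_left _ _) i
      _ ≤ max (fv v t) 1 ^ F.natDegree := pow_le_pow_right₀ hm (by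
          have := Finset.mem_range.1 hi
          omega)
  calc fv v (F.coeff i : K) * (fv v t) ^ i ≤ 1 * max (fv v t) 1 ^ F.natDegree :=
        mul_le_mul h1 h2 (pow_nonneg (apply_nonneg _ _) _) zero_le_one
    _ = max (fv v t) 1 ^ F.natDegree := one_mul _

theorem w_int (w : InfinitePlace K) (a : ℤ) : w ((a : ℤ) : K) = |(a : ℝ)| := by
  have h8 := w.2
  obtain ⟨φ, hφ⟩ := h8
  have h9 : w ((a : ℤ) : K) = ‖φ ((a : ℤ) : K)‖ := by
    have := congrArg (fun f : AbsoluteValue K ℝ => f ((a : ℤ) : K)) hφ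
    exact this.symm
  rw [h9, map_intCast, Complex.norm_intCast]

theorem w_sum_le (w : InfinitePlace K) (s : Finset ℕ) (f : ℕ → K) : w (∑ i ∈ s, f i) ≤ ∑ i ∈ s, w (f i) := by
  classical
  induction s using Finset.induction_on with
  | empty =>
    rw [Finset.sum_empty, Finset.sum_empty, map_zero]
  | insert a s ha ih =>
    rw [Finset.sum_insert ha, Finset.sum_insert ha]
    have h1 : w (f a + ∑ i ∈ s, f i) ≤ w (f a) + w (∑ i ∈ s, f i) := w.1.add_le _ _
    linarith

theorem w_poly_le (w : InfinitePlace K) (F : ℤ[X]) (t : K) :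
    w (aeval t F) ≤ sc F * max (w t) 1 ^ F.natDegree := by
  have hm : 1 ≤ max (w t) 1 := le_max_right _ _
  rw [aeval_sum]
  refine (w_sum_le w _ _).trans ?_
  unfold sc
  rw [Finset.sum_mul]
  refine Finset.sum_le_sum fun i hi => ?_
  rw [map_mul, map_pow, w_int]
  refine mul_le_mul_of_nonneg_left ?_ (abs_nonneg _)
  calc (w t) ^ i ≤ max (w t) 1 ^ i := pow_le_pow_left₀ (apply_nonneg _ _) (le_max_left _ _) i
    _ ≤ max (w t) 1 ^ F.natDegree := pow_le_pow_right₀ hm (by
        have := Finset.mem_range.1 hi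
        omega)

theorem max_pow (d : ℕ) {a : ℝ} (ha : 0 ≤ a) : max (a ^ d) 1 = max a 1 ^ d := by
  rcases le_total a 1 with h | h
  · rw [max_eq_right h, max_eq_right (pow_le_one₀ ha h), one_pow]
  · rw [max_eq_left h, max_eq_left (one_le_pow₀ h)]

/-- the norm of a value -/
theorem norm_poly {t : K} (ht' : Pt t) {P : Fin 3 → Idl K} (hP : IsP ∅ t P) (F : ℤ[X]) (hy : aeval t F ≠ 0) :
    ∃ Q : ℕ, 0 < Q ∧ ((nn (P 1) : ℕ) : ℚ) ^ F.natDegree * |Algebra.norm ℚ (aeval t F)| = Q ∧
      (Q : ℝ) ≤ sc F ^ (Module.finrank ℚ K) * Real.exp (F.natDegree * ht t) := by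
  have hF : F ≠ 0 := by
    rintro rfl
    exact hy (map_zero _)
  have hsc := sc_pos hF
  have hfv : ∀ v : Pr K, max (fv v (t ^ F.natDegree)) 1 = max (fv v t) 1 ^ F.natDegree := fun v => by
    rw [map_pow]
    exact max_pow _ (apply_nonneg _ _)
  obtain ⟨Q, hQ⟩ := ideal_of (t := t ^ F.natDegree) (pow_ne_zero _ ht'.1) hy (fun v => by
    rw [hfv v]
    exact fv_poly_le v F t)
  have hnf := norm_formula (pow_ne_zero _ ht'.1) hy hQ
  have hSF : SF (t ^ F.natDegree) = F.natDegree * SF t := by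
    unfold SF
    rw [mul_finsum]
    refine finsum_congr fun v => ?_
    rw [hfv v, Real.log_pow]
  rw [hSF, ← len_P1 ht' hP] at hnf
  have hn : Algebra.norm ℚ (aeval t F) ≠ 0 := Algebra.norm_ne_zero_iff.2 hy
  have hn' : (0 : ℝ) < |((Algebra.norm ℚ (aeval t F) : ℚ) : ℝ)| := abs_pos.2 (by exact_mod_cast hn)
  have h1 : (0 : ℝ) < nn (P 1) := by exact_mod_cast nn_pos _
  have h2 : (0 : ℝ) < nn Q := by exact_mod_cast nn_pos _
  refine ⟨nn Q, nn_pos _, ?_, ?_⟩
  · have h3 := hnf
    rw [← log_nn, ← log_nn, ← Real.log_pow, ← Real.log_div h2.ne' (pow_pos h1 _).ne'] at h3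
    have h4 := Real.log_injOn_pos (Set.mem_Ioi.2 hn') (Set.mem_Ioi.2 (div_pos h2 (pow_pos h1 _))) h3
    rw [eq_div_iff (pow_pos h1 _).ne'] at h4
    have h5 : ((((nn (P 1) : ℕ) : ℚ) ^ F.natDegree * |Algebra.norm ℚ (aeval t F)| : ℚ) : ℝ) = ((nn Q : ℚ) : ℝ) := by
      push_cast
      linarith
    exact_mod_cast h5
  · have h4 : ∑ w : InfinitePlace K, (w.mult : ℝ) * Real.log (w (aeval t F)) ≤
        ∑ w : InfinitePlace K, (w.mult : ℝ) * (Real.log (sc F) + F.natDegree * Real.log (max (w t) 1)) := by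
      refine Finset.sum_le_sum fun w _ => mul_le_mul_of_nonneg_left ?_ (Nat.cast_nonneg _)
      have hm : (0 : ℝ) < max (w t) 1 := lt_max_of_lt_right one_pos
      rw [← Real.log_pow, ← Real.log_mul hsc.ne' (pow_pos hm _).ne']
      exact Real.log_le_log (InfinitePlace.pos_iff.2 hy) (w_poly_le w F t)
    have h5 : ∑ w : InfinitePlace K, (w.mult : ℝ) * (Real.log (sc F) + F.natDegree * Real.log (max (w t) 1)) =
        Module.finrank ℚ K * Real.log (sc F) +
          F.natDegree * ∑ w : InfinitePlace K, (w.mult : ℝ) * Real.log (max (w t) 1) := by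
      simp only [mul_add]
      rw [Finset.sum_add_distrib, ← Finset.sum_mul, Finset.mul_sum]
      congr 1
      · congr 1
        have := InfinitePlace.sum_mult_eq (K := K)
        exact_mod_cast this
      · exact Finset.sum_congr rfl fun w _ => by ring
    rw [sum_log_norm hy] at h4
    have h6 : len Q ≤ Module.finrank ℚ K * Real.log (sc F) + F.natDegree * ht t := by
      rw [ht_SF, ← len_P1 ht' hP]
      linarith
    rw [← exp_len]
    refine (Real.exp_le_exp.2 h6).trans (le_of_eq ?_)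
    rw [Real.exp_add, Real.exp_nat_mul, Real.exp_log hsc]

end Pool.Agent.H83W
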