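import Pool.Agent.Results.MP_6e34ef_nt.StarshapedAbc
import Pool.Agent.H83W.PolyNorm
import Pool.Agent.H510R2.Div

/-! The numerators and denominators of the norms of the values `F(x / (1 - x))` of polynomials with integer coefficients. -/

set_option autoImplicit false

namespace Pool.Agent.H83W.PD

open NumberField IsDedekindDomain Finset Pool.Agent.H691R3 Pool.Agent.W223.AK Pool.Agent.W222.UABC Polynomial
open Pool.Agent.Results.MP_6e34ef_nt

/-- the norm of `F(x / (1 - x))` -/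
noncomputable def normAt {K : Type} [Field K] [NumberField K] (x : K) (F : ℤ[X]) : ℚ :=
  Algebra.norm ℚ (aeval (x / (1 - x)) F)

/-- numerator times denominator -/
def nd (q : ℚ) : ℕ := q.num.natAbs * q.den

theorem nd_neg (q : ℚ) : nd (-q) = nd q := by
  unfold nd
  rw [Rat.num_neg_eq_neg_num, Int.natAbs_neg, Rat.den_neg_eq_den]

theorem nd_abs (q : ℚ) : nd |q| = nd q := by
  rcases abs_choice q with h | h
  · rw [h]
  · rw [h, nd_neg]

theorem nd_pos {q : ℚ} (hq : q ≠ 0) : 0 < nd q :=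
  Nat.mul_pos (Int.natAbs_pos.2 (Rat.num_ne_zero.2 hq)) q.den_pos

theorem nd_div_le {a b : ℕ} (ha : 0 < a) (hb : 0 < b) {q : ℚ} (hq : (b : ℚ) * q = a) : nd q ≤ a * b := by
  have hqz : q = ((a : ℤ) : ℚ) / ((b : ℤ) : ℚ) := by
    rw [eq_div_iff (by exact_mod_cast hb.ne')]
    push_cast
    rw [← hq]
    ring
  have hd1 : q.num ∣ (a : ℤ) := by
    rw [hqz, ← Rat.divInt_eq_div]
    exact Rat.num_dvd _ (Nat.cast_ne_zero.2 hb.ne' : ((b : ℕ) : ℤ) ≠ 0)
  have hd2 : (q.den : ℤ) ∣ (b : ℤ) := by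
    rw [hqz, ← Rat.divInt_eq_div]
    exact Rat.den_dvd _ _
  have hn1 : q.num.natAbs ≤ a := by
    have := Nat.le_of_dvd (by simpa using ha) (Int.natAbs_dvd_natAbs.2 hd1)
    simpa using this
  have hn2 : q.den ≤ b := Nat.le_of_dvd hb (by exact_mod_cast hd2)
  exact Nat.mul_le_mul hn1 hn2

theorem aeval_ne {K : Type} [Field K] [NumberField K] {x : K} {F : ℤ[X]} (h : normAt x F ≠ 0) :
    aeval (x / (1 - x)) F ≠ 0 := fun h' => h (by rw [normAt, h', Algebra.norm_zero])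

theorem nd_bound {n : ℕ} (K : IntermediateField ℚ (AlgebraicClosure ℚ)) [NumberField K]
    (x : K) (hK : Module.finrank ℚ K = n) (h0 : x ≠ 0) (h1 : x ≠ 1) (F : ℤ[X]) (hF : normAt x F ≠ 0) :
    (nd (normAt x F) : ℝ) ≤ (sc F * 2 ^ F.natDegree) ^ n *
      Real.exp (2 * F.natDegree * (n * FewViolators.height ![x, 1 - x, -1])) := by
  have h1' : (1 : K) - x ≠ 0 := sub_ne_zero.2 h1.symm
  set X : ℝ := (n : ℝ) * FewViolators.height ![x, 1 - x, -1] with hX
  have h2 : (n : ℝ) * height ![x, 1 - x, -1] ≤ X := le_rfl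
  set a : Fin 3 → K := ![x, 1 - x, -1] with ha
  have ha0 : a 0 = x := rfl
  have ha1 : a 1 = 1 - x := rfl
  have ha2 : a 2 = -1 := rfl
  have hs : a 0 + a 1 + a 2 = 0 := by rw [ha0, ha1, ha2]; ring
  have hb := H3_bounds (x := a) (by rw [ha1]; exact h1') hs
  have hPt : Pt (x / (1 - x)) := by
    refine ⟨div_ne_zero h0 h1', ?_⟩
    have : x / (1 - x) + 1 = 1 / (1 - x) := by
      field_simp
      ring
    rw [this]
    exact div_ne_zero one_ne_zero h1'
  obtain ⟨P, hP⟩ := exists_isP ∅ hPt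
  rw [← hK, H3_height] at h2
  have hht : ht (x / (1 - x)) ≤ X := by
    have := hb.1.trans h2
    rwa [ha0, ha1] at this
  obtain ⟨Q, hQ0, hQ1, hQ2⟩ := norm_poly hPt hP F (aeval_ne hF)
  have hlen : Real.log (nn (P 1)) ≤ X + n * Real.log 2 := by
    rw [log_nn]
    have := len_le hPt hP 1
    rw [cS_empty, hK] at this
    linarith
  have hnn : 0 < nn (P 1) := nn_pos _
  have hnnR : (0 : ℝ) < nn (P 1) := by exact_mod_cast hnn
  have hnn3 : (nn (P 1) : ℝ) ≤ Real.exp X * 2 ^ n := by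
    have h3 : (nn (P 1) : ℝ) ≤ Real.exp (X + n * Real.log 2) := by
      rw [← Real.exp_log hnnR]
      exact Real.exp_le_exp.2 hlen
    have e4 : Real.exp ((n : ℝ) * Real.log 2) = 2 ^ n := by
      rw [Real.exp_nat_mul, Real.exp_log two_pos]
    rwa [Real.exp_add, e4] at h3
  have h5 : nd (normAt x F) ≤ Q * nn (P 1) ^ F.natDegree := by
    rw [← nd_abs]
    refine nd_div_le hQ0 (pow_pos hnn _) ?_
    push_cast
    exact hQ1
  have hsc : 0 ≤ sc F := Finset.sum_nonneg fun i _ => abs_nonneg _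
  have h6 : (nd (normAt x F) : ℝ) ≤ (Q : ℝ) * (nn (P 1) : ℝ) ^ F.natDegree := by exact_mod_cast h5
  have hQ3 : (Q : ℝ) ≤ sc F ^ n * Real.exp (F.natDegree * X) := by
    rw [hK] at hQ2
    exact hQ2.trans (mul_le_mul_of_nonneg_left (Real.exp_le_exp.2 (mul_le_mul_of_nonneg_left hht (Nat.cast_nonneg _)))
      (pow_nonneg hsc _))
  calc (nd (normAt x F) : ℝ) ≤ (Q : ℝ) * (nn (P 1) : ℝ) ^ F.natDegree := h6
    _ ≤ (sc F ^ n * Real.exp (F.natDegree * X)) * (Real.exp X * 2 ^ n) ^ F.natDegree :=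
        mul_le_mul hQ3 (pow_le_pow_left₀ hnnR.le hnn3 _) (by positivity) (by positivity)
    _ = (sc F * 2 ^ F.natDegree) ^ n * Real.exp (2 * F.natDegree * X) := by
        have e5 : Real.exp (2 * F.natDegree * X) = Real.exp (F.natDegree * X) * Real.exp (F.natDegree * X) := by
          rw [← Real.exp_add]
          congr 1
          ring
        have e6 : Real.exp X ^ F.natDegree = Real.exp (F.natDegree * X) := (Real.exp_nat_mul _ _).symm
        have e7 : ((2 : ℝ) ^ n) ^ F.natDegree = (2 ^ F.natDegree) ^ n := by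
          rw [← pow_mul, ← pow_mul, mul_comm]
        rw [mul_pow, mul_pow, e5, e6, e7]
        ring

/-- the norm of `F(x / (1 - x))` for a pair of a field and a number -/
noncomputable def nA (F : ℤ[X]) (p : UniformAbcWindows.Num) : ℚ :=
  haveI : NumberField p.1.1 := p.1.2
  normAt p.2 F

/-- the product of the numerators and the denominators for finitely many `F` -/
noncomputable def nJ (J : Finset ℤ[X]) (p : UniformAbcWindows.Num) : ℕ := ∏ F ∈ J, nd (nA F p)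

theorem nJ_pos {J : Finset ℤ[X]} {p : UniformAbcWindows.Num} (h : ∀ F ∈ J, nA F p ≠ 0) : 0 < nJ J p :=
  Finset.prod_pos fun F hF => nd_pos (h F hF)

/-- the sum of the degrees -/
noncomputable def dg (J : Finset ℤ[X]) : ℝ := ∑ F ∈ J, (F.natDegree : ℝ)

theorem dg_nonneg (J : Finset ℤ[X]) : 0 ≤ dg J := Finset.sum_nonneg fun F _ => Nat.cast_nonneg _

theorem nJ_bound {n : ℕ} {κ c : ℝ} (J : Finset ℤ[X]) (p : UniformAbcWindows.Num)
    (hp : p ∈ UniformAbcWindows.Exc n κ c) (h : ∀ F ∈ J, nA F p ≠ 0) :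
    (nJ J p : ℝ) ≤ (1 + ∏ F ∈ J, (sc F * 2 ^ F.natDegree) ^ n) *
      Real.exp (UniformAbcWindows.ht p) ^ (2 * (n : ℝ) * dg J) := by
  obtain ⟨hd, h0, h1, -⟩ := hp
  have h5 : ∏ F ∈ J, Real.exp (2 * F.natDegree * (n * UniformAbcWindows.ht p)) =
      Real.exp (UniformAbcWindows.ht p) ^ (2 * (n : ℝ) * dg J) := by
    rw [← Real.exp_mul, ← Real.exp_sum]
    congr 1
    unfold dg
    rw [Finset.mul_sum, Finset.mul_sum]
    exact Finset.sum_congr rfl fun F _ => by ring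
  have h6 : (nJ J p : ℝ) ≤ ∏ F ∈ J, ((sc F * 2 ^ F.natDegree) ^ n *
      Real.exp (2 * F.natDegree * (n * UniformAbcWindows.ht p))) := by
    unfold nJ
    push_cast
    refine Finset.prod_le_prod (fun F _ => Nat.cast_nonneg _) fun F hF => ?_
    haveI : NumberField p.1.1 := p.1.2
    exact nd_bound p.1.1 p.2 hd h0 h1 F (h F hF)
  rw [Finset.prod_mul_distrib, h5] at h6
  refine h6.trans (mul_le_mul_of_nonneg_right (by linarith) (Real.rpow_nonneg (Real.exp_pos _).le _))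

/-- the integers which divide such a product for a violator of height at most `m ^ A` -/
def DivBad (n : ℕ) (κ c A : ℝ) (J : Finset ℤ[X]) : Set ℕ :=
  {m : ℕ | ∃ p ∈ UniformAbcWindows.Exc n κ c, Real.exp (UniformAbcWindows.ht p) ≤ (m : ℝ) ^ A ∧
    (∀ F ∈ J, nA F p ≠ 0) ∧ m ∣ nJ J p}

open Classical in
theorem thin {n : ℕ} (hn : 2 ≤ n) {κ e c A : ℝ} (hκ : 0 < κ) (hA : 0 < A)
    (H : ∀ δ : ℝ, 0 < δ → ∃ M : ℝ, ∀ B : ℝ, 1 ≤ B → (FewViolators.Viol n κ c B).Finite ∧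
      ((FewViolators.Viol n κ c B).ncard : ℝ) ≤ M * B ^ ((n : ℝ) * e / κ + δ)) (J : Finset ℤ[X]) (ε : ℝ) (hε : 0 < ε) :
    ∃ C : ℝ, ∀ X : ℕ, 1 ≤ X → (((Ioc 0 X).filter (fun m => m ∈ DivBad n κ c A J)).card : ℝ) ≤
      C * (X : ℝ) ^ (A * (n * max e 0 / κ) + ε) := by
  have hn0 : (0 : ℝ) < n := by exact_mod_cast (by omega : 0 < n)
  have hN0 : (0 : ℝ) < (n : ℝ) * ((n : ℝ) + 1) := by positivity
  set δ : ℝ := ε / (2 * (A * ((n : ℝ) * ((n : ℝ) + 1)))) with hδ
  have hδ0 : 0 < δ := by positivity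
  set δ' : ℝ := ε / (4 * (A * (n * (dg J + 1)))) with hδ'
  have hδ0' : 0 < δ' := by
    have := dg_nonneg J
    positivity
  obtain ⟨C, hC⟩ := UniformAbcWindows.count hn hκ H δ hδ0
  obtain ⟨D, hD0, hD⟩ := Pool.Agent.H510R2.divisor_bound δ' hδ0'
  have hdg := dg_nonneg J
  set L : ℝ := 1 + ∏ F ∈ J, (sc F * 2 ^ F.natDegree) ^ n with hL
  have hL0 : 0 < L := by
    have : 0 ≤ ∏ F ∈ J, (sc F * 2 ^ F.natDegree) ^ n := Finset.prod_nonneg fun F _ => by
      have : 0 ≤ sc F := Finset.sum_nonneg fun i _ => abs_nonneg _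
      positivity
    linarith
  refine ⟨|C| * (D * L ^ δ'), fun X hX => ?_⟩
  have hX1 : (1 : ℝ) ≤ X := by exact_mod_cast hX
  have hX0 : (0 : ℝ) < X := by linarith
  set B : ℝ := (X : ℝ) ^ A with hB
  have hB1 : 1 ≤ B := Real.one_le_rpow hX1 hA.le
  have hB0 : 0 < B := by linarith
  obtain ⟨hfin, hcard⟩ := hC (B ^ (n * (n + 1))) (one_le_pow₀ hB1)
  set V : Finset UniformAbcWindows.Num := hfin.toFinset with hV
  have hFmem : ∀ p, p ∈ V ↔ p ∈ UniformAbcWindows.Exc n κ c ∧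
      Real.exp (UniformAbcWindows.ht p) ^ (n * (n + 1)) ≤ B ^ (n * (n + 1)) := fun p => by
    rw [hV, Set.Finite.mem_toFinset]
    rfl
  have hle : ∀ p ∈ V, Real.exp (UniformAbcWindows.ht p) ≤ B := fun p hp =>
    le_of_pow_le_pow_left₀ (by positivity) hB0.le ((hFmem p).1 hp).2
  have hsub : (Ioc 0 X).filter (fun m => m ∈ DivBad n κ c A J) ⊆
      (V.filter fun p => ∀ F ∈ J, nA F p ≠ 0).biUnion fun p => (nJ J p).divisors := by
    intro m hm
    rw [mem_filter, mem_Ioc] at hm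
    obtain ⟨⟨hm0, hmX⟩, p, hp, hht, hne, hdvd⟩ := hm
    have hpB : Real.exp (UniformAbcWindows.ht p) ≤ B :=
      hht.trans (Real.rpow_le_rpow (Nat.cast_nonneg _) (by exact_mod_cast hmX) hA.le)
    rw [mem_biUnion]
    refine ⟨p, mem_filter.2 ⟨(hFmem p).2 ⟨hp, pow_le_pow_left₀ (Real.exp_pos _).le hpB _⟩, hne⟩, ?_⟩
    rw [Nat.mem_divisors]
    exact ⟨hdvd, (nJ_pos hne).ne'⟩
  have h1 : ∀ p ∈ V.filter (fun p => ∀ F ∈ J, nA F p ≠ 0),
      (((nJ J p).divisors.card : ℕ) : ℝ) ≤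
        D * (L * B ^ (2 * (n : ℝ) * dg J)) ^ δ' := by
    intro p hp
    obtain ⟨hpF, hne⟩ := mem_filter.1 hp
    obtain ⟨hpE, -⟩ := (hFmem p).1 hpF
    have h3 := nJ_bound J p hpE hne
    refine (hD _ (nJ_pos hne)).trans (mul_le_mul_of_nonneg_left ?_ hD0.le)
    refine Real.rpow_le_rpow (Nat.cast_nonneg _) (h3.trans ?_) hδ0'.le
    refine mul_le_mul_of_nonneg_left ?_ hL0.le
    exact Real.rpow_le_rpow (Real.exp_pos _).le (hle p hpF) (by positivity)
  have h3 : (((Ioc 0 X).filter (fun m => m ∈ DivBad n κ c A J)).card : ℝ) ≤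
      (V.card : ℝ) * (D * (L * B ^ (2 * (n : ℝ) * dg J)) ^ δ') := by
    calc (((Ioc 0 X).filter (fun m => m ∈ DivBad n κ c A J)).card : ℝ)
        ≤ ((∑ p ∈ V.filter (fun p => ∀ F ∈ J, nA F p ≠ 0),
            (nJ J p).divisors.card : ℕ) : ℝ) := by
          exact_mod_cast (card_le_card hsub).trans card_biUnion_le
      _ = ∑ p ∈ V.filter (fun p => ∀ F ∈ J, nA F p ≠ 0),
            (((nJ J p).divisors.card : ℕ) : ℝ) := by push_cast; rfl
      _ ≤ ∑ _p ∈ V.filter (fun p => ∀ F ∈ J, nA F p ≠ 0),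
            D * (L * B ^ (2 * (n : ℝ) * dg J)) ^ δ' := sum_le_sum h1
      _ = ((V.filter (fun p => ∀ F ∈ J, nA F p ≠ 0)).card : ℝ) *
            (D * (L * B ^ (2 * (n : ℝ) * dg J)) ^ δ') := by rw [sum_const, nsmul_eq_mul]
      _ ≤ (V.card : ℝ) * (D * (L * B ^ (2 * (n : ℝ) * dg J)) ^ δ') := by
          apply mul_le_mul_of_nonneg_right _ (by positivity)
          exact_mod_cast card_filter_le _ _
  have h4 : (V.card : ℝ) ≤ |C| * (B ^ (n * (n + 1))) ^ (max e 0 / ((n + 1) * κ) + δ) := by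
    have h5 : V.card = {p | p ∈ UniformAbcWindows.Exc n κ c ∧
        Real.exp (UniformAbcWindows.ht p) ^ (n * (n + 1)) ≤ B ^ (n * (n + 1))}.ncard := by
      rw [hV, Set.ncard_eq_toFinset_card _ hfin]
    rw [h5]
    exact hcard.trans (mul_le_mul_of_nonneg_right (le_abs_self C) (by positivity))
  have h6 : (B ^ (n * (n + 1))) ^ (max e 0 / ((n + 1) * κ) + δ) * (B ^ (2 * (n : ℝ) * dg J)) ^ δ' ≤
      (X : ℝ) ^ (A * (n * max e 0 / κ) + ε) := by
    rw [← Real.rpow_natCast B, ← Real.rpow_mul hB0.le, ← Real.rpow_mul hB0.le, ← Real.rpow_add hB0, hB,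
      ← Real.rpow_mul hX0.le]
    apply Real.rpow_le_rpow_of_exponent_le hX1
    have e1 : A * (((n * (n + 1) : ℕ) : ℝ) * (max e 0 / ((n + 1) * κ) + δ)) = A * (n * max e 0 / κ) + ε / 2 := by
      rw [hδ]
      push_cast
      field_simp
    have e2 : A * (2 * (n : ℝ) * dg J * δ') ≤ ε / 2 := by
      have e3 : A * (2 * (n : ℝ) * (dg J + 1) * δ') = ε / 2 := by
        rw [hδ']
        field_simp
        ring
      have e4 : A * (2 * (n : ℝ) * dg J * δ') ≤ A * (2 * (n : ℝ) * (dg J + 1) * δ') := by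
        apply mul_le_mul_of_nonneg_left _ hA.le
        apply mul_le_mul_of_nonneg_right _ hδ0'.le
        apply mul_le_mul_of_nonneg_left _ (by positivity)
        linarith
      linarith
    rw [mul_add]
    linarith
  calc (((Ioc 0 X).filter (fun m => m ∈ DivBad n κ c A J)).card : ℝ)
      ≤ (V.card : ℝ) * (D * (L * B ^ (2 * (n : ℝ) * dg J)) ^ δ') := h3
    _ ≤ (|C| * (B ^ (n * (n + 1))) ^ (max e 0 / ((n + 1) * κ) + δ)) * (D * (L * B ^ (2 * (n : ℝ) * dg J)) ^ δ') :=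
        mul_le_mul_of_nonneg_right h4 (by positivity)
    _ = |C| * (D * L ^ δ') * ((B ^ (n * (n + 1))) ^ (max e 0 / ((n + 1) * κ) + δ) * (B ^ (2 * (n : ℝ) * dg J)) ^ δ') := by
        rw [Real.mul_rpow hL0.le (by positivity)]
        ring
    _ ≤ |C| * (D * L ^ δ') * (X : ℝ) ^ (A * (n * max e 0 / κ) + ε) :=
        mul_le_mul_of_nonneg_left h6 (by positivity)

end Pool.Agent.H83W.PD
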