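import Pool.Agent.H83W.Fam

/-! Windows around the numbers `g_n β ^ w_n` which contain no element of a thin set. -/

set_option autoImplicit false

open Finset Filter Topology MeasureTheory

namespace Pool.Agent.H83W

open scoped ENNReal NNReal
open Pool.Agent.Y854.GM (ExpLe tendsto_of_expLe)

/-- relative distances of powers -/
theorem pow_sub {y z w : ℝ} (hy : 0 < y) (hyz : y ≤ z) (_hw : 0 ≤ w) : w * (z - y) / z * y ^ w ≤ z ^ w - y ^ w := by
  have hz : 0 < z := lt_of_lt_of_le hy hyz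
  have h1 : z ^ w = y ^ w * Real.exp (w * Real.log (z / y)) := by
    rw [Real.rpow_def_of_pos hz, Real.rpow_def_of_pos hy, ← Real.exp_add, Real.log_div hz.ne' hy.ne']
    congr 1
    ring
  have h2 : 1 + w * Real.log (z / y) ≤ Real.exp (w * Real.log (z / y)) := by
    have := Real.add_one_le_exp (w * Real.log (z / y))
    linarith
  have h3 : 1 - y / z ≤ Real.log (z / y) := by
    have h4 := Real.log_le_sub_one_of_pos (div_pos hy hz)
    have h5 : Real.log (z / y) = - Real.log (y / z) := by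
      rw [← Real.log_inv, inv_div]
    linarith
  have h4 : w * (z - y) / z = w * (1 - y / z) := by
    field_simp
  have h5 : w * (1 - y / z) ≤ w * Real.log (z / y) := mul_le_mul_of_nonneg_left h3 _hw
  have hyw : 0 < y ^ w := Real.rpow_pos_of_pos hy w
  rw [h1, h4]
  have h6 : y ^ w * (1 + w * Real.log (z / y)) ≤ y ^ w * Real.exp (w * Real.log (z / y)) :=
    mul_le_mul_of_nonneg_left h2 hyw.le
  have h7 : w * (1 - y / z) * y ^ w ≤ w * Real.log (z / y) * y ^ w := mul_le_mul_of_nonneg_right h5 hyw.le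
  linarith

/-- one piece for the powers -/
theorem dim_piece {T : Type} (S : Set T) (h : T → ℝ) {g w : ℕ → ℝ} {b w0 s τ θ D η : ℝ} (hg : ∀ n, 1 ≤ g n)
    (hw0 : 0 < w0) (hw : ∀ n, w0 ≤ w n) (hb : 1 ≤ b) (hτ : 0 ≤ τ) (hv : ExpLe (fun n => g n * b ^ (w n)) τ)
    (hs : 0 ≤ s) (hθ1 : θ < 1) (hη : 0 ≤ η) (hD : (1 + η) * s + τ < D * (1 - θ)) (C : ℝ) (hC : 0 ≤ C)
    (hS : ∀ X : ℝ, 1 ≤ X → {t | t ∈ S ∧ h t ≤ X}.Finite ∧ ({t | t ∈ S ∧ h t ≤ X}.ncard : ℝ) ≤ C * X ^ s)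
    (a : ℝ) (ha : b ≤ a) :
    dimH {y : ℝ | y ∈ Set.Icc a (a ^ (1 + η)) ∧ ∀ n1 : ℕ, ∃ n : ℕ, n1 ≤ n ∧ ∃ t ∈ S,
      |h t - g n * y ^ (w n)| ≤ (g n * y ^ (w n)) ^ θ} ≤ ENNReal.ofReal D := by
  have ha1 : 1 ≤ a := hb.trans ha
  have ha0 : 0 < a := by linarith
  have hb0 : 0 < b := by linarith
  have hwp : ∀ n, 0 < w n := fun n => lt_of_lt_of_le hw0 (hw n)
  have hgp : ∀ n, 0 < g n := fun n => lt_of_lt_of_le one_pos (hg n)
  have hv1 : ∀ n, 1 ≤ g n * a ^ (w n) := fun n =>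
    one_le_mul_of_one_le_of_one_le (hg n) (Real.one_le_rpow ha1 (hwp n).le)
  have hv2 : ExpLe (fun n => g n * a ^ (w n)) τ := by
    intro t ht
    refine Summable.of_nonneg_of_le (fun n => ?_) (fun n => ?_) (hv t ht)
    · exact Real.rpow_nonneg (by linarith [hv1 n]) _
    · apply Real.rpow_le_rpow_of_nonpos (mul_pos (hgp n) (Real.rpow_pos_of_pos hb0 _)) _ (by linarith)
      exact mul_le_mul_of_nonneg_left (Real.rpow_le_rpow hb0.le ha (hwp n).le) (hgp n).le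
  set R : ℝ := a ^ (1 + η) with hR
  have hR0 : 0 < R := Real.rpow_pos_of_pos ha0 _
  refine dim_fam S h (fun n y => g n * y ^ (w n)) (Set.Icc a R) (v := fun n => g n * a ^ (w n)) (c := w0 / R)
    hv1 hτ hv2 hs hθ1 hη (by positivity) ?_ ?_ ?_ hD C hC hS
  · rintro n y ⟨hy1, _⟩
    exact mul_le_mul_of_nonneg_left (Real.rpow_le_rpow ha0.le hy1 (hwp n).le) (hgp n).le
  · rintro n y ⟨hy1, hy2⟩
    have h1 : y ^ (w n) ≤ (a ^ (w n)) ^ (1 + η) := by
      calc y ^ (w n) ≤ (a ^ (1 + η)) ^ (w n) := Real.rpow_le_rpow (by linarith) hy2 (hwp n).le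
        _ = (a ^ (w n)) ^ (1 + η) := by
            rw [← Real.rpow_mul ha0.le, ← Real.rpow_mul ha0.le, mul_comm]
    have h2 : g n ≤ (g n) ^ (1 + η) := by
      calc g n = (g n) ^ (1 : ℝ) := (Real.rpow_one _).symm
        _ ≤ (g n) ^ (1 + η) := Real.rpow_le_rpow_of_exponent_le (hg n) (by linarith)
    show g n * y ^ (w n) ≤ (g n * a ^ (w n)) ^ (1 + η)
    rw [Real.mul_rpow (hgp n).le (Real.rpow_nonneg ha0.le _)]
    exact mul_le_mul h2 h1 (Real.rpow_nonneg (by linarith) _) (Real.rpow_nonneg (hgp n).le _)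
  · rintro n y ⟨hy1, hy2⟩ z ⟨hz1, hz2⟩ hyz
    have hy0 : 0 < y := by linarith
    have hz0 : 0 < z := by linarith
    have hle : y ≤ z := by
      by_contra hcon
      push Not at hcon
      have h1 : z ^ (w n) < y ^ (w n) := Real.rpow_lt_rpow hz0.le hcon (hwp n)
      have h2 : g n * z ^ (w n) < g n * y ^ (w n) := mul_lt_mul_of_pos_left h1 (hgp n)
      exact absurd hyz (not_le.2 h2)
    have h1 := pow_sub hy0 hle (hwp n).le
    have h2 : w0 / R * |y - z| ≤ w n * (z - y) / z := by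
      rw [abs_sub_comm, abs_of_nonneg (by linarith), div_mul_eq_mul_div, div_le_div_iff₀ hR0 hz0]
      have h3 : w0 * (z - y) ≤ w n * (z - y) := mul_le_mul_of_nonneg_right (hw n) (by linarith)
      have h4 : 0 ≤ w n * (z - y) := mul_nonneg (hwp n).le (by linarith)
      calc w0 * (z - y) * z ≤ w n * (z - y) * z := mul_le_mul_of_nonneg_right h3 hz0.le
        _ ≤ w n * (z - y) * R := mul_le_mul_of_nonneg_left hz2 h4
    have h5 : w0 / R * |y - z| * y ^ (w n) ≤ z ^ (w n) - y ^ (w n) :=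
      (mul_le_mul_of_nonneg_right h2 (Real.rpow_nonneg hy0.le _)).trans h1
    show w0 / R * |y - z| * (g n * y ^ (w n)) ≤ g n * z ^ (w n) - g n * y ^ (w n)
    calc w0 / R * |y - z| * (g n * y ^ (w n)) = g n * (w0 / R * |y - z| * y ^ (w n)) := by ring
      _ ≤ g n * (z ^ (w n) - y ^ (w n)) := mul_le_mul_of_nonneg_left h5 (hgp n).le
      _ = g n * z ^ (w n) - g n * y ^ (w n) := by ring

/-- **Windows around `g_n β ^ w_n` without elements of a thin set.** Let `S` have at most `C X ^ (s + ε)` elements of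
height at most `X`, for each `ε > 0`. For all `β ≥ b` outside a set of dimension at most `(s + τ) / (1 - θ)` and all but
finitely many `n` no element of `S` has a height `H` with `|H - g_n β ^ w_n| ≤ (g_n β ^ w_n) ^ θ`. -/
theorem windows_pow {T : Type} (S : Set T) (h : T → ℝ) {g w : ℕ → ℝ} {b w0 s τ θ : ℝ} (hg : ∀ n, 1 ≤ g n)
    (hw0 : 0 < w0) (hw : ∀ n, w0 ≤ w n) (hb : 1 ≤ b) (hτ : 0 ≤ τ) (hv : ExpLe (fun n => g n * b ^ (w n)) τ)
    (hs : 0 ≤ s) (hθ1 : θ < 1)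
    (hS : ∀ ε : ℝ, 0 < ε → ∃ C : ℝ, ∀ X : ℝ, 1 ≤ X →
      {t | t ∈ S ∧ h t ≤ X}.Finite ∧ ({t | t ∈ S ∧ h t ≤ X}.ncard : ℝ) ≤ C * X ^ (s + ε)) :
    ∃ E : Set ℝ, dimH E ≤ ENNReal.ofReal ((s + τ) / (1 - θ)) ∧ ∀ β : ℝ, b ≤ β → β ∉ E →
      ∃ n0 : ℕ, ∀ n : ℕ, n0 ≤ n → ∀ t ∈ S, (g n * β ^ (w n)) ^ θ < |h t - g n * β ^ (w n)| := by
  have h1θ : 0 < 1 - θ := by linarith
  set E : Set ℝ := {y : ℝ | b ≤ y ∧ ∀ n1 : ℕ, ∃ n : ℕ, n1 ≤ n ∧ ∃ t ∈ S,
      |h t - g n * y ^ (w n)| ≤ (g n * y ^ (w n)) ^ θ} with hE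
  refine ⟨E, ?_, fun β hβ hβE => ?_⟩
  · apply ENNReal.le_of_forall_pos_le_add
    intro ε hε _
    have hε' : (0 : ℝ) < ε := by exact_mod_cast hε
    set η : ℝ := min 1 (ε * (1 - θ) / (2 * (s + 2))) with hη
    have hη0 : 0 < η := lt_min one_pos (by positivity)
    have hη1 : η ≤ 1 := min_le_left _ _
    have hη2 : η * (s + 2) ≤ ε * (1 - θ) / 2 := by
      have h1 : η ≤ ε * (1 - θ) / (2 * (s + 2)) := min_le_right _ _
      rw [le_div_iff₀ (by positivity)] at h1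
      linarith
    obtain ⟨C, hC⟩ := hS η hη0
    have hC' : ∀ X : ℝ, 1 ≤ X → {t | t ∈ S ∧ h t ≤ X}.Finite ∧
        ({t | t ∈ S ∧ h t ≤ X}.ncard : ℝ) ≤ |C| * X ^ (s + η) := by
      intro X hX
      exact ⟨(hC X hX).1, (hC X hX).2.trans (mul_le_mul_of_nonneg_right (le_abs_self C) (by positivity))⟩
    have hD : (1 + η) * (s + η) + τ < ((s + τ) / (1 - θ) + ε) * (1 - θ) := by
      have e0 : ((s + τ) / (1 - θ) + ε) * (1 - θ) = s + τ + ε * (1 - θ) := by
        rw [add_mul, div_mul_cancel₀ _ h1θ.ne']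
      rw [e0]
      have h1 : η * η ≤ η := by nlinarith
      have h2 : 0 < (ε : ℝ) * (1 - θ) := by positivity
      nlinarith
    have hpiece : ∀ a : ℝ, b ≤ a → dimH {y : ℝ | y ∈ Set.Icc a (a ^ (1 + η)) ∧ ∀ n1 : ℕ, ∃ n : ℕ, n1 ≤ n ∧
        ∃ t ∈ S, |h t - g n * y ^ (w n)| ≤ (g n * y ^ (w n)) ^ θ} ≤
        ENNReal.ofReal ((s + τ) / (1 - θ)) + ε := by
      intro a ha
      have h1 := dim_piece S h hg hw0 hw hb hτ hv (s := s + η) (by positivity) hθ1 hη0.le hD |C| (abs_nonneg C) hC'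
        a ha
      rw [ENNReal.ofReal_add (by positivity) (by positivity), ENNReal.ofReal_coe_nnreal] at h1
      exact h1
    have hsub : E ⊆ ⋃ q : ℚ, {y : ℝ | y ∈ Set.Icc (max b q) ((max b q) ^ (1 + η)) ∧ ∀ n1 : ℕ, ∃ n : ℕ, n1 ≤ n ∧
        ∃ t ∈ S, |h t - g n * y ^ (w n)| ≤ (g n * y ^ (w n)) ^ θ} := by
      rintro y ⟨hy1, hy2⟩
      rw [Set.mem_iUnion]
      rcases hy1.eq_or_lt with heq | hlt
      · obtain ⟨q, hq⟩ := exists_rat_lt b
        refine ⟨q, ?_, hy2⟩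
        rw [max_eq_left hq.le, ← heq]
        refine ⟨le_rfl, ?_⟩
        calc b = b ^ (1 : ℝ) := (Real.rpow_one _).symm
          _ ≤ b ^ (1 + η) := Real.rpow_le_rpow_of_exponent_le hb (by linarith)
      · have hy0 : 1 < y := lt_of_le_of_lt hb hlt
        have hroot : y ^ (1 / (1 + η)) < y := by
          calc y ^ (1 / (1 + η)) < y ^ (1 : ℝ) := by
                apply Real.rpow_lt_rpow_of_exponent_lt hy0
                rw [div_lt_one (by positivity)]
                linarith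
            _ = y := Real.rpow_one _
        obtain ⟨q, hq1, hq2⟩ := exists_rat_btwn (max_lt hlt hroot)
        have hq3 : b < q := lt_of_le_of_lt (le_max_left _ _) hq1
        have hq4 : y ^ (1 / (1 + η)) < q := lt_of_le_of_lt (le_max_right _ _) hq1
        refine ⟨q, ?_, hy2⟩
        rw [max_eq_right hq3.le]
        refine ⟨hq2.le, ?_⟩
        calc y = (y ^ (1 / (1 + η))) ^ (1 + η) := by
              rw [← Real.rpow_mul (by linarith), one_div, inv_mul_cancel₀ (by positivity), Real.rpow_one]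
          _ ≤ (q : ℝ) ^ (1 + η) := Real.rpow_le_rpow (Real.rpow_nonneg (by linarith) _) hq4.le (by positivity)
    refine (dimH_mono hsub).trans ?_
    rw [dimH_iUnion]
    exact iSup_le fun q => hpiece _ (le_max_left _ _)
  · by_contra hcon
    push Not at hcon
    exact hβE ⟨hβ, fun n1 => hcon n1⟩

/-- exponents which grow at least linearly -/
theorem expLe_lin {w : ℕ → ℝ} {δ : ℝ} (hδ : 0 < δ) (hw : ∀ n : ℕ, δ * ((n : ℝ) + 1) ≤ w n) {b : ℝ} (hb : 1 < b) :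
    ExpLe (fun n => 1 * b ^ (w n)) 0 := by
  intro t ht
  have hb0 : 0 < b := by linarith
  have hr0 : 0 < b ^ (-(δ * t)) := Real.rpow_pos_of_pos hb0 _
  have hr1 : b ^ (-(δ * t)) < 1 := Real.rpow_lt_one_of_one_lt_of_neg hb (by nlinarith)
  refine Summable.of_nonneg_of_le (fun n => ?_) (fun n => ?_) (summable_geometric_of_lt_one hr0.le hr1)
  · show 0 ≤ (1 * b ^ (w n)) ^ (-t)
    rw [one_mul]
    exact Real.rpow_nonneg (Real.rpow_nonneg hb0.le _) _
  · show (1 * b ^ (w n)) ^ (-t) ≤ (b ^ (-(δ * t))) ^ n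
    rw [one_mul, ← Real.rpow_mul hb0.le, ← Real.rpow_natCast, ← Real.rpow_mul hb0.le]
    apply Real.rpow_le_rpow_of_exponent_le hb.le
    have h1 := hw n
    have h2 : δ * (n : ℝ) ≤ w n := by nlinarith
    nlinarith

end Pool.Agent.H83W
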